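import Pool.Agent.helper92.RC.Spec

/-! Row FZ (MP_cf13c7_al). -/

set_option autoImplicit false

namespace Pool.Agent.helper92.RC

open scoped commutatorElement

universe u

theorem FZ : CYC_stmt.{u} → GEN_stmt.{u} → FZ_stmt.{u} := by
  intro hC hG F _ _ P hP x hx hx1
  by_contra hcon
  have hcom : ∀ y ∈ P, y * x = x * y := by
    intro y hy
    by_contra hne
    refine hcon ⟨y, hy, fun h => hne ?_⟩
    exact commutatorElement_eq_one_iff_mul_comm.1 h
  have hfree : IsFreeGroup P := subgroupIsFreeOfIsFree P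
  obtain ⟨X, Y, χ, χ', ψ, h1, h2, h3, h4, h5, h6⟩ := hG F P hP
  have hc : ∀ y : P, (⟨x, hx⟩ : P) * y = y * ⟨x, hx⟩ := by
    intro y
    apply Subtype.ext
    exact (hcom y.1 y.2).symm
  obtain ⟨v, s, t, hv1, hv2⟩ := hC P ⟨x, hx⟩ X (hc X)
  obtain ⟨w, s', t', hw1, hw2⟩ := hC P ⟨x, hx⟩ Y (hc Y)
  -- χ' (x) = 0
  have e1 : t * Multiplicative.toAdd (χ v) = 1 := by
    have := congrArg Multiplicative.toAdd h1
    rw [hv2, map_zpow, toAdd_zpow, toAdd_ofAdd, smul_eq_mul] at this
    exact this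
  have e2 : t * Multiplicative.toAdd (χ' v) = 0 := by
    have := congrArg Multiplicative.toAdd h3
    rw [hv2, map_zpow, toAdd_zpow, toAdd_one, smul_eq_mul] at this
    exact this
  have ht : t ≠ 0 := by
    intro h0
    rw [h0, zero_mul] at e1
    exact zero_ne_one e1
  have e3 : Multiplicative.toAdd (χ' v) = 0 := by
    rcases mul_eq_zero.1 e2 with h | h
    · exact absurd h ht
    · exact h
  have e4 : Multiplicative.toAdd (χ' ⟨x, hx⟩) = 0 := by
    rw [hv1, map_zpow, toAdd_zpow, e3, smul_zero]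
  have e5 : t' * Multiplicative.toAdd (χ' w) = 1 := by
    have := congrArg Multiplicative.toAdd h4
    rw [hw2, map_zpow, toAdd_zpow, toAdd_ofAdd, smul_eq_mul] at this
    exact this
  have e6 : s' * Multiplicative.toAdd (χ' w) = 0 := by
    rw [hw1, map_zpow, toAdd_zpow, smul_eq_mul] at e4
    exact e4
  have hb : Multiplicative.toAdd (χ' w) ≠ 0 := by
    intro h0
    rw [h0, mul_zero] at e5
    exact zero_ne_one e5
  have hs : s' = 0 := by
    rcases mul_eq_zero.1 e6 with h | h
    · exact h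
    · exact absurd h hb
  rw [hs, zpow_zero] at hw1
  exact hx1 (congrArg Subtype.val hw1)

end Pool.Agent.helper92.RC
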