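import Pool.Agent.helper92.RC.Spec

/-! Row TOR (MP_cf13c7_al). -/

set_option autoImplicit false

namespace Pool.Agent.helper92.RC

open scoped commutatorElement

universe u

theorem TOR : TOR_stmt.{u} := by
  intro F _ _ x n hx hn
  have h : (IsFreeGroup.toFreeGroup F x) ^ n = 1 := by rw [← map_zpow, hx, map_one]
  have h2 := (IsMulTorsionFree.zpow_eq_one_iff_left hn).1 h
  exact (IsFreeGroup.toFreeGroup F).injective (by rw [h2, map_one])

end Pool.Agent.helper92.RC
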